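import Mathlib
import Pool.Agent.KS6_24.LN.Dens
import Pool.Agent.KS6_24.ST.SHRDefs

set_option autoImplicit false

/-!
The product law for invariant sets along pairwise unrelated affine forms, from `S_CONVU` (a copy of the first part of
`Pool/Agent/Results/MP_d02c56_nt/LinearPatterns.lean` by helper24, in a new namespace).
-/

namespace Pool.Agent.KS6_6.LP

open Filter Topology


/-- The Collatz map on the integers. -/
def C (x : ℤ) : ℤ := if x % 2 = 0 then x / 2 else 3 * x + 1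

/-- `S` is invariant under the Collatz map and its inverse. -/
def Invariant (S : Set ℤ) : Prop := ∀ x : ℤ, x ∈ S ↔ C x ∈ S

/-- The trajectories of `x` and `y` meet. -/
def Meet (x y : ℤ) : Prop := ∃ k l : ℕ, C^[k] x = C^[l] y

/-- The union of the five known cycles. -/
def Known : Finset ℤ := {1, 4, 2, -1, -2, -5, -14, -7, -20, -10, -17, -50, -25, -74, -37, -110,
  -55, -164, -82, -41, -122, -61, -182, -91, -272, -136, -68, -34, 0}

/-- The trajectory of `x` reaches one of the five known cycles. -/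
def Reaches (x : ℤ) : Prop := ∃ k : ℕ, C^[k] x ∈ Known

/-- `S` has density `δ` on the integers of sign `s`. -/
def HasDensity (s : ℤ) (S : Set ℤ) (δ : ℝ) : Prop :=
  Tendsto (fun N : ℕ => ({n : ℕ | 1 ≤ n ∧ n ≤ N ∧ s * n ∈ S}.ncard : ℝ) / N) atTop (𝓝 δ)

/-- `a` is the representative of its class: among the integers of sign `s` whose trajectory meets that of `a`, it has
the least absolute value. -/
def IsRep (s a : ℤ) : Prop := 0 < s * a ∧ ∀ b : ℤ, 0 < s * b → Meet a b → s * a ≤ s * b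

/-- `μ s` is the law of the class of a random integer of sign `s`: `μ s a` is the density of the class of `a` on the
integers of sign `s` if `a` is the representative of its class, and `0` otherwise. -/
def ClassLaws (μ : ℤ → ℤ → ℝ) : Prop :=
  ∀ s : ℤ, s = 1 ∨ s = -1 → HasSum (μ s) 1 ∧
    ∀ a : ℤ, (IsRep s a → 0 < μ s a ∧ HasDensity s {x | Meet x a} (μ s a)) ∧ (¬ IsRep s a → μ s a = 0)

/-- The linear form with the coefficients `A`. -/
def lin {r : ℕ} (A n : Fin r → ℤ) : ℤ := ∑ j, A j * n j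

/-- The number of the points `n` of the box `[1, N] ^ r` with `P n`, divided by `N ^ r`. -/
noncomputable def prob {r : ℕ} (N : ℕ) (P : (Fin r → ℤ) → Prop) : ℝ :=
  ({n : Fin r → ℤ | (∀ j, 1 ≤ n j ∧ n j ≤ N) ∧ P n}.ncard : ℝ) / N ^ r

/-- `P n` holds for almost all points `n` with positive coordinates. -/
def AlmostAll {r : ℕ} (P : (Fin r → ℤ) → Prop) : Prop := Tendsto (fun N : ℕ => prob N fun n => ¬ P n) atTop (𝓝 0)

/-- The linear form `A` is a product of the linear form `B` and a number `2 ^ x 3 ^ y`, `x` and `y` integers. -/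
def Related {r : ℕ} (A B : Fin r → ℤ) : Prop := ∃ w x y z : ℕ, ∀ j, A j * (2 ^ w * 3 ^ x) = B j * (2 ^ y * 3 ^ z)

/-- The `B b` are nonzero and pairwise unrelated, and `A a` is related to `B (g a)`. -/
def Splits {r m k : ℕ} (B : Fin m → Fin r → ℤ) (g : Fin k → Fin m) (A : Fin k → Fin r → ℤ) : Prop :=
  (∀ b, B b ≠ 0) ∧ (∀ b b', b ≠ b' → ¬ Related (B b) (B b')) ∧ ∀ a, Related (A a) (B (g a))

/-- The integer point `n` is in the set `K` of real points. -/
def Mem {r : ℕ} (K : Set (Fin r → ℝ)) (n : Fin r → ℤ) : Prop := (fun j => (n j : ℝ)) ∈ K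

/-- `K` is convex, and on `K` the affine form `B b · x + q b` has the sign `s b`. -/
def Region {r m : ℕ} (B : Fin m → Fin r → ℤ) (q s : Fin m → ℤ) (K : Set (Fin r → ℝ)) : Prop :=
  Convex ℝ K ∧ ∀ x ∈ K, ∀ b, 0 < (s b : ℝ) * (∑ j, (B b j : ℝ) * x j + q b)



open Pool.Agent.KS6_24.LN Pool.Agent.H499R2.CO Pool.Agent.Y965.SI Finset Pool.Agent.KS6_24.ST
open Pool.Agent.H499R2.ND (Ci Kc Kc_self Kc_symm Kc_trans structure_full)

/-! ### transfer to the accelerated map -/

theorem Tz1_mem {S : Set ℤ} (hS : Invariant S) (y : ℤ) : Tz 1 y ∈ S ↔ y ∈ S := by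
  unfold Tz
  by_cases h : y % 2 = 0
  · rw [if_pos h, hS y]
    unfold C
    rw [if_pos h]
  · rw [if_neg h, hS y, hS (C y)]
    have h1 : C (C y) = (3 * y + 1) / 2 := by
      unfold C
      rw [if_neg h, if_pos (by omega)]
    rw [h1]

/-- the conjugated set -/
def conj (s : ℤ) (S : Set ℤ) : Set ℤ := {x | s * x ∈ S}

theorem conj_inv {s : ℤ} (hs : s = 1 ∨ s = -1) {S : Set ℤ} (hS : Invariant S) (x : ℤ) :
    Tz s x ∈ conj s S ↔ x ∈ conj s S := by
  have hss : ∀ x : ℤ, s * (s * x) = x := by intro x; rcases hs with rfl | rfl <;> ring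
  have h1 : s * Tz s x = Tz 1 (s * x) := by
    have := dens_Tz_mul hs (s * x)
    rw [hss] at this
    rw [this, hss]
  show s * Tz s x ∈ S ↔ s * x ∈ S
  rw [h1]
  exact Tz1_mem hS _

theorem sign_of_pos {s : ℤ} (hs : s = 1 ∨ s = -1) {S : Set ℤ} (h : ∃ x ∈ S, 0 < s * x) :
    ∃ x ∈ conj s S, 0 < x := by
  have hss : ∀ x : ℤ, s * (s * x) = x := by intro x; rcases hs with rfl | rfl <;> ring
  obtain ⟨x, hx, h0⟩ := h
  exact ⟨s * x, by show s * (s * x) ∈ S; rw [hss]; exact hx, h0⟩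

/-! ### proportions, one variable -/

/-- The proportion of the `n` with `P n` among `1, ..., N`. -/
noncomputable def prob1 (N : ℕ) (P : ℕ → Prop) : ℝ := ({n : ℕ | 1 ≤ n ∧ n ≤ N ∧ P n}.ncard : ℝ) / N

theorem prob1_eq (N : ℕ) (P : ℕ → Prop) [DecidablePred P] : prob1 N P = (#{n ∈ Icc 1 N | P n} : ℝ) / N := by
  unfold prob1
  rw [← Set.ncard_coe_finset]
  congr 3
  ext x
  simp only [Set.mem_ofPred_eq, coe_filter, mem_Icc, and_assoc]

theorem prob1_not {N : ℕ} (hN : 1 ≤ N) (P : ℕ → Prop) : prob1 N (fun n => ¬ P n) = 1 - prob1 N P := by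
  classical
  rw [prob1_eq, prob1_eq]
  have h1 := card_filter_add_card_filter_not (s := Icc 1 N) P
  rw [Nat.card_Icc, Nat.add_sub_cancel] at h1
  have h2 : (N : ℝ) ≠ 0 := by
    have : N ≠ 0 := by omega
    exact_mod_cast this
  rw [eq_sub_iff_add_eq, ← add_div, div_eq_one_iff_eq h2]
  have h3 : #{n ∈ Icc 1 N | ¬ P n} + #{n ∈ Icc 1 N | P n} = N := by rw [add_comm]; exact h1
  exact_mod_cast h3

/-! ### proportions, several variables -/

theorem prob_eq {r : ℕ} (N : ℕ) (P : (Fin r → ℤ) → Prop) [DecidablePred P] :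
    prob N P = (#{n ∈ SH6.Bx r N | P n} : ℝ) / (N : ℝ) ^ r := by
  unfold prob
  rw [← Set.ncard_coe_finset]
  congr 3
  ext x
  simp only [Set.mem_ofPred_eq, coe_filter, SH6.mem_Bx, mem_Icc]

theorem prob_nonneg {r : ℕ} (N : ℕ) (P : (Fin r → ℤ) → Prop) : 0 ≤ prob N P := by unfold prob; positivity

theorem prob_mono {r N : ℕ} {P Q : (Fin r → ℤ) → Prop} (h : ∀ n ∈ SH6.Bx r N, P n → Q n) : prob N P ≤ prob N Q := by
  classical
  rw [prob_eq, prob_eq]
  apply div_le_div_of_nonneg_right _ (by positivity)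
  have : #{n ∈ SH6.Bx r N | P n} ≤ #{n ∈ SH6.Bx r N | Q n} := by
    apply card_le_card
    intro n hn
    rw [mem_filter] at hn ⊢
    exact ⟨hn.1, h n hn.1 hn.2⟩
  exact_mod_cast this

theorem prob_congr {r N : ℕ} {P Q : (Fin r → ℤ) → Prop} (h : ∀ n ∈ SH6.Bx r N, (P n ↔ Q n)) : prob N P = prob N Q :=
  le_antisymm (prob_mono fun n hn => (h n hn).1) (prob_mono fun n hn => (h n hn).2)

theorem prob_split {r : ℕ} (N : ℕ) (P Q : (Fin r → ℤ) → Prop) :
    prob N P = prob N (fun n => P n ∧ Q n) + prob N (fun n => P n ∧ ¬ Q n) := by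
  classical
  rw [prob_eq, prob_eq, prob_eq, ← add_div]
  congr 1
  have := card_filter_add_card_filter_not (s := (SH6.Bx r N).filter P) Q
  rw [filter_filter, filter_filter] at this
  exact_mod_cast this.symm

theorem prob_true {r N : ℕ} (hN : 1 ≤ N) : prob (r := r) N (fun _ => True) = 1 := by
  classical
  rw [prob_eq, filter_true_of_mem (fun _ _ => trivial), SH6.card_Bx]
  have : (0 : ℝ) < (N : ℝ) ^ r := by
    have : (0 : ℝ) < N := by exact_mod_cast hN
    positivity
  push_cast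
  field_simp

theorem prob_le_one {r : ℕ} (N : ℕ) (P : (Fin r → ℤ) → Prop) : prob N P ≤ 1 := by
  classical
  rw [prob_eq]
  apply div_le_one_of_le₀ _ (by positivity)
  have : #{n ∈ SH6.Bx r N | P n} ≤ N ^ r := by
    refine (card_filter_le _ _).trans ?_
    rw [SH6.card_Bx]
  exact_mod_cast this

theorem prob_not {r N : ℕ} (hN : 1 ≤ N) (P : (Fin r → ℤ) → Prop) : prob N (fun n => ¬ P n) = 1 - prob N P := by
  have h1 := prob_split N (fun _ => True) P
  have h2 := prob_true (r := r) hN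
  simp only [true_and] at h1
  linarith

theorem prob_false {r : ℕ} (N : ℕ) : prob (r := r) N (fun _ => False) = 0 := by
  classical
  rw [prob_eq, filter_false_of_mem (fun _ _ h => h)]; simp

/-- finitely many disjoint events -/
theorem prob_sum {ι : Type*} {r : ℕ} (A : Finset ι) (N : ℕ) (P : ι → (Fin r → ℤ) → Prop)
    (hd : ∀ a ∈ A, ∀ b ∈ A, a ≠ b → ∀ n, P a n → ¬ P b n) :
    prob N (fun n => ∃ a ∈ A, P a n) = ∑ a ∈ A, prob N (P a) := by
  classical
  simp only [prob_eq]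
  rw [← sum_div]
  congr 1
  have e : (SH6.Bx r N).filter (fun n => ∃ a ∈ A, P a n) = A.biUnion fun a => (SH6.Bx r N).filter (P a) := by
    ext n
    simp only [mem_filter, mem_biUnion]
    tauto
  rw [e, card_biUnion]
  · push_cast; rfl
  · intro a ha b hb hab
    show Disjoint _ _
    rw [disjoint_left]
    intro n hn hn'
    exact hd a ha b hb hab n (mem_filter.1 hn).2 (mem_filter.1 hn').2

theorem prob_or {r : ℕ} (N : ℕ) (P Q : (Fin r → ℤ) → Prop) : prob N (fun n => P n ∨ Q n) ≤ prob N P + prob N Q := by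
  have h1 := prob_split N (fun n => P n ∨ Q n) P
  have h2 : prob N (fun n => (P n ∨ Q n) ∧ P n) ≤ prob N P := prob_mono fun n _ h => h.2
  have h3 : prob N (fun n => (P n ∨ Q n) ∧ ¬ P n) ≤ prob N Q := prob_mono fun n _ h => by
    rcases h.1 with h4 | h4
    · exact absurd h4 h.2
    · exact h4
  linarith

theorem prob_union {ι : Type*} {r : ℕ} (F : Finset ι) (N : ℕ) (P : ι → (Fin r → ℤ) → Prop) :
    prob N (fun n => ∃ a ∈ F, P a n) ≤ ∑ a ∈ F, prob N (P a) := by
  classical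
  induction F using Finset.induction_on with
  | empty => simp [prob_false]
  | insert a F ha ih =>
    rw [sum_insert ha]
    have h1 := prob_or N (P a) (fun n => ∃ a ∈ F, P a n)
    have h2 : prob N (fun n => ∃ b ∈ insert a F, P b n) = prob N (fun n => P a n ∨ ∃ a ∈ F, P a n) := by
      apply prob_congr
      intro n _
      simp
    rw [h2]
    linarith

theorem almost_of_eps {r : ℕ} {P : (Fin r → ℤ) → Prop}
    (h : ∀ ε : ℝ, 0 < ε → ∀ᶠ N : ℕ in atTop, prob N (fun n => ¬ P n) ≤ ε) : AlmostAll P := by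
  unfold AlmostAll
  rw [Metric.tendsto_atTop]
  intro ε hε
  obtain ⟨N0, hN0⟩ := eventually_atTop.1 (h (ε / 2) (by positivity))
  refine ⟨N0, fun N hN => ?_⟩
  rw [Real.dist_eq, sub_zero, abs_of_nonneg (prob_nonneg _ _)]
  exact lt_of_le_of_lt (hN0 N hN) (by linarith)

theorem AlmostAll.and {r : ℕ} {P Q : (Fin r → ℤ) → Prop} (hP : AlmostAll P) (hQ : AlmostAll Q) :
    AlmostAll fun n => P n ∧ Q n := by
  unfold AlmostAll at *
  have h1 := hP.add hQ
  rw [add_zero] at h1
  refine squeeze_zero (fun N => prob_nonneg _ _) (fun N => ?_) h1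
  refine le_trans (prob_mono fun n _ h => ?_) (prob_or N _ _)
  tauto

theorem AlmostAll.mono {r : ℕ} {P Q : (Fin r → ℤ) → Prop} (hP : AlmostAll P) (h : ∀ n, P n → Q n) : AlmostAll Q := by
  unfold AlmostAll at *
  exact squeeze_zero (fun N => prob_nonneg _ _) (fun N => prob_mono fun n _ h1 h2 => h1 (h n h2)) hP

theorem almost_iff {r : ℕ} {P : (Fin r → ℤ) → Prop} : AlmostAll P ↔ Tendsto (fun N : ℕ => prob N P) atTop (𝓝 1) := by
  unfold AlmostAll
  constructor
  · intro h
    have h1 := h.const_sub 1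
    rw [sub_zero] at h1
    refine h1.congr' ?_
    filter_upwards [eventually_ge_atTop 1] with N hN
    rw [prob_not hN]; ring
  · intro h
    have h1 := h.const_sub 1
    rw [sub_self] at h1
    refine h1.congr' ?_
    filter_upwards [eventually_ge_atTop 1] with N hN
    rw [prob_not hN]

/-- few points near a hyperplane -/
theorem prob_near {r : ℕ} {L : Fin r → ℤ} (hL : L ≠ 0) (b : ℤ) :
    Tendsto (fun N : ℕ => prob N fun n => |lin L n| ≤ |b|) atTop (𝓝 0) := by
  classical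
  have hr1 : 1 ≤ r := by
    by_contra h
    have h0 : r = 0 := by omega
    subst h0
    exact hL (funext fun j => j.elim0)
  have h1 : Tendsto (fun N : ℕ => ((2 * b.natAbs + 1 : ℕ) : ℝ) / (N : ℝ)) atTop (𝓝 0) :=
    tendsto_const_div_atTop_nhds_zero_nat _
  refine squeeze_zero' (Eventually.of_forall fun N => prob_nonneg _ _) ?_ h1
  filter_upwards [eventually_ge_atTop 1] with N hN
  have hN0 : (0 : ℝ) < N := by exact_mod_cast hN
  rw [prob_eq, div_le_div_iff₀ (by positivity) hN0]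
  have h2 := SH6.near_card (N := N) hL 0 b.natAbs
  have h3 : #{n ∈ SH6.Bx r N | |lin L n| ≤ |b|} ≤ (2 * b.natAbs + 1) * N ^ (r - 1) := by
    refine le_trans (card_le_card ?_) h2
    intro n hn
    rw [mem_filter] at hn ⊢
    refine ⟨hn.1, ?_⟩
    rw [add_zero, Int.natCast_natAbs]
    exact hn.2
  have h4 : (#{n ∈ SH6.Bx r N | |lin L n| ≤ |b|} : ℝ) ≤ ((2 * b.natAbs + 1 : ℕ) : ℝ) * (N : ℝ) ^ (r - 1) := by
    exact_mod_cast h3
  have h5 : (N : ℝ) ^ r = N ^ (r - 1) * N := by rw [← pow_succ]; congr 1; omega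
  calc (#{n ∈ SH6.Bx r N | |lin L n| ≤ |b|} : ℝ) * N ≤ (((2 * b.natAbs + 1 : ℕ) : ℝ) * (N : ℝ) ^ (r - 1)) * N :=
        mul_le_mul_of_nonneg_right h4 hN0.le
    _ = _ := by rw [h5]; ring

/-! ### the density -/

theorem density_of_mz {s : ℤ} {S : Set ℤ} {δ : ℝ}
    (h : MeanZero (fun x => (conj s S).indicator (fun _ => (1 : ℝ)) x - δ)) :
    HasDensity s S δ := by
  classical
  unfold HasDensity
  set ind : ℤ → ℝ := (conj s S).indicator (fun _ => (1 : ℝ)) with hind
  have hind01 : ∀ x, 0 ≤ ind x ∧ ind x ≤ 1 := by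
    intro x
    simp only [hind, Set.indicator]
    split_ifs <;> norm_num
  have hc : ∀ N : ℕ, ({n : ℕ | 1 ≤ n ∧ n ≤ N ∧ s * n ∈ S}.ncard : ℝ) = ∑ n ∈ range N, ind ((n + 1 : ℕ)) := by
    intro N
    have e1 : {n : ℕ | 1 ≤ n ∧ n ≤ N ∧ s * n ∈ S}
        = (((range N).filter fun n : ℕ => ((n + 1 : ℕ) : ℤ) ∈ conj s S).image fun n : ℕ => n + 1 : Finset ℕ) := by
      ext n
      simp only [Set.mem_ofPred_eq, coe_image, coe_filter, mem_range, Set.mem_image]
      constructor
      · rintro ⟨ha, hb, hc⟩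
        refine ⟨n - 1, ⟨by omega, ?_⟩, by omega⟩
        rw [Nat.sub_add_cancel ha]; exact hc
      · rintro ⟨m, ⟨hm, hmS⟩, rfl⟩
        exact ⟨by omega, by omega, hmS⟩
    rw [e1, Set.ncard_coe_finset, card_image_of_injective _ (fun a b h => Nat.succ_injective h), card_filter]
    push_cast
    apply sum_congr rfl
    intro n _
    simp only [hind, Set.indicator]
    try push_cast
    try rfl
  have hs : ∀ N : ℕ, ∑ n ∈ range N, (ind (n : ℕ) - δ)
      = ∑ n ∈ range N, ind ((n + 1 : ℕ)) + (ind 0 - ind N) - N * δ := by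
    intro N
    have e1 := sum_range_succ (fun n : ℕ => ind (n : ℕ)) N
    have e2 := sum_range_succ' (fun n : ℕ => ind (n : ℕ)) N
    rw [sum_sub_distrib, sum_const, card_range, nsmul_eq_mul]
    simp only [Nat.cast_zero] at e2
    linarith
  unfold MeanZero at h
  have h5 : Tendsto (fun N : ℕ => (ind 0 - ind N) / N) atTop (𝓝 0) := by
    apply squeeze_zero_norm (a := fun N : ℕ => 1 / (N : ℝ))
    · intro N
      rw [Real.norm_eq_abs, abs_div, Nat.abs_cast]
      gcongr
      rw [abs_le]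
      constructor <;> linarith [(hind01 0).1, (hind01 0).2, (hind01 N).1, (hind01 N).2]
    · exact tendsto_one_div_atTop_nhds_zero_nat
  have h6 := (h.sub h5).add_const δ
  rw [sub_zero, zero_add] at h6
  apply h6.congr'
  filter_upwards [eventually_gt_atTop 0] with N hN
  have hN' : (N : ℝ) ≠ 0 := by positivity
  rw [hc]
  have := hs N
  show (∑ n ∈ range N, (ind (n : ℕ) - δ)) / N - (ind 0 - ind N) / N + δ = _
  rw [this]
  field_simp
  ring

/-! ### invariant sets -/

theorem compl_inv {S : Set ℤ} (hS : Invariant S) : Invariant Sᶜ := fun x => not_congr (hS x)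

theorem meet_inv (a : ℤ) : Invariant {x | Meet x a} := by
  intro x
  constructor
  · rintro ⟨k, l, h⟩
    refine ⟨k, l + 1, ?_⟩
    rw [← Function.iterate_succ_apply, Function.iterate_succ_apply', h, Function.iterate_succ_apply']
  · rintro ⟨k, l, h⟩
    exact ⟨k + 1, l, by rw [Function.iterate_succ_apply]; exact h⟩

theorem known_closed : ∀ x ∈ Known, C x ∈ Known := by decide

theorem reaches_inv : Invariant {x | Reaches x} := by
  intro x
  constructor
  · rintro ⟨k, h⟩
    refine ⟨k, ?_⟩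
    rw [← Function.iterate_succ_apply, Function.iterate_succ_apply']
    exact known_closed _ h
  · rintro ⟨k, h⟩
    exact ⟨k + 1, by rw [Function.iterate_succ_apply]; exact h⟩


theorem meet_iff_Kc (x y : ℤ) : Meet x y ↔ x ∈ Kc y := Iff.rfl

theorem Meet.symm {x y : ℤ} (h : Meet x y) : Meet y x := Kc_symm h

theorem Meet.trans {x y z : ℤ} (h : Meet x y) (h' : Meet y z) : Meet x z := Kc_trans h h'

/-! ### classes -/

theorem mz_class {s : ℤ} (hs : s = 1 ∨ s = -1) {δ : ℤ → ℝ} {a : ℤ} (ha : 0 < s * a)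
    (h : Tendsto (fun N : ℕ => ({n : ℤ | 0 < s * n ∧ s * n ≤ N ∧
        ∃ i j : ℕ, Ci^[i] n = Ci^[j] a}.ncard : ℝ) / N) atTop (𝓝 (δ a))) :
    0 < δ a ∧ δ a ≤ 1 ∧ MeanZero (fun x => (conj s {x | Meet x a}).indicator (fun _ => (1 : ℝ)) x - δ a) := by
  obtain ⟨δ', h1, h2, h3⟩ := dens hs (conj s {x | Meet x a}) (conj_inv hs (meet_inv a))
    (sign_of_pos hs ⟨a, ⟨0, 0, rfl⟩, ha⟩)
  have h4 := density_of_mz h3
  have hss : ∀ x : ℤ, s * (s * x) = x := by intro x; rcases hs with rfl | rfl <;> ring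
  have h5 : ∀ N : ℕ, ({n : ℤ | 0 < s * n ∧ s * n ≤ N ∧ ∃ i j : ℕ, Ci^[i] n = Ci^[j] a}.ncard : ℝ) / N
      = prob1 N fun n => s * n ∈ {x | Meet x a} := by
    intro N
    unfold prob1
    congr 2
    rw [← Set.ncard_image_of_injective (f := fun n : ℕ => s * (n : ℤ))]
    · congr 1
      ext x
      simp only [Set.mem_ofPred_eq, Set.mem_image]
      constructor
      · rintro ⟨hx1, hx2, hx3⟩
        refine ⟨(s * x).toNat, ⟨by omega, by omega, ?_⟩, ?_⟩
        · have : s * (((s * x).toNat : ℕ) : ℤ) = x := by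
            rw [Int.toNat_of_nonneg hx1.le, hss]
          rw [this]; exact hx3
        · rw [Int.toNat_of_nonneg hx1.le, hss]
      · rintro ⟨n, ⟨hn1, hn2, hn3⟩, rfl⟩
        rw [hss]
        exact ⟨by exact_mod_cast hn1, by exact_mod_cast hn2, hn3⟩
    · intro a b hab
      simp only at hab
      have : s * (s * (a : ℤ)) = s * (s * (b : ℤ)) := by rw [hab]
      rw [hss, hss] at this
      exact_mod_cast this
  have h6 : δ' = δ a := by
    refine tendsto_nhds_unique h4 (h.congr h5)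
  rw [← h6]
  exact ⟨h1, h2, h3⟩

/-- every integer of sign `s` meets a representative -/
theorem exists_rep {s : ℤ} (hs : s = 1 ∨ s = -1) {x : ℤ} (hx : 0 < s * x) : ∃ a : ℤ, IsRep s a ∧ Meet x a := by
  classical
  have hss : ∀ x : ℤ, s * (s * x) = x := by intro x; rcases hs with rfl | rfl <;> ring
  have hne : ∃ n : ℕ, 0 < n ∧ Meet x (s * n) := by
    refine ⟨(s * x).toNat, by omega, 0, 0, ?_⟩
    simp only [Function.iterate_zero, id]
    rw [Int.toNat_of_nonneg hx.le, hss]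
  obtain ⟨hn0, hm⟩ := Nat.find_spec hne
  refine ⟨s * (Nat.find hne : ℕ), ⟨by rw [hss]; exact_mod_cast hn0, ?_⟩, hm⟩
  intro b hb hmb
  rw [hss]
  have h1 : ((s * b).toNat : ℤ) = s * b := Int.toNat_of_nonneg hb.le
  have h2 : Nat.find hne ≤ (s * b).toNat := by
    apply Nat.find_min' hne
    refine ⟨by omega, ?_⟩
    rw [h1, hss]
    exact hm.trans hmb
  have h3 : ((Nat.find hne : ℕ) : ℤ) ≤ ((s * b).toNat : ℤ) := by exact_mod_cast h2
  rwa [h1] at h3

theorem rep_unique {s : ℤ} (hs : s = 1 ∨ s = -1) {a b : ℤ} (ha : IsRep s a) (hb : IsRep s b) (h : Meet a b) : a = b := by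
  have h1 := ha.2 b hb.1 h
  have h2 := hb.2 a ha.1 h.symm
  rcases hs with rfl | rfl <;> omega

/-- the classes: densities `δ a` of the classes of the representatives, summing to 1 -/
theorem classes {s : ℤ} (hs : s = 1 ∨ s = -1) : ∃ δ : {a : ℤ // IsRep s a} → ℝ, HasSum δ 1 ∧
    ∀ a, 0 < δ a ∧ δ a ≤ 1 ∧ MeanZero (fun x => (conj s {x | Meet x a}).indicator (fun _ => (1 : ℝ)) x - δ a) := by
  obtain ⟨δ, h1, _, h3⟩ := structure_full hs
  exact ⟨fun a => δ a, h3, fun a => mz_class hs a.2.1 (h1 a a.2.1).2⟩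


/-- every invariant set has a density -/
theorem mz_all {s : ℤ} (hs : s = 1 ∨ s = -1) {S : Set ℤ} (hS : Invariant S) :
    ∃ δ : ℝ, 0 ≤ δ ∧ δ ≤ 1 ∧ ((∃ x ∈ S, 0 < s * x) → 0 < δ) ∧
      MeanZero (fun x => (conj s S).indicator (fun _ => (1 : ℝ)) x - δ) := by
  classical
  by_cases hex : ∃ x ∈ S, 0 < s * x
  · obtain ⟨δ, h1, h2, h3⟩ := dens hs (conj s S) (conj_inv hs hS) (sign_of_pos hs hex)
    exact ⟨δ, h1.le, h2, fun _ => h1, h3⟩
  · refine ⟨0, le_rfl, zero_le_one, fun h => absurd h hex, ?_⟩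
    have hss : ∀ x : ℤ, s * (s * x) = x := by intro x; rcases hs with rfl | rfl <;> ring
    unfold MeanZero
    have h1 : ∀ n : ℕ, 1 ≤ n → (conj s S).indicator (fun _ => (1 : ℝ)) (n : ℤ) = 0 := by
      intro n hn
      apply Set.indicator_of_notMem
      intro h
      exact hex ⟨s * n, h, by rw [hss]; exact_mod_cast hn⟩
    have h2 : ∀ N : ℕ, |(∑ n ∈ range N, ((conj s S).indicator (fun _ => (1 : ℝ)) ((n : ℕ) : ℤ) - 0)) / N| ≤ 1 / (N : ℝ) := by
      intro N
      rw [abs_div, Nat.abs_cast]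
      apply div_le_div_of_nonneg_right _ (Nat.cast_nonneg N)
      have h3 : ∀ n ∈ range N, ((conj s S).indicator (fun _ => (1 : ℝ)) ((n : ℕ) : ℤ) - 0)
          ≤ if n = 0 then (1 : ℝ) else 0 := by
        intro n _
        split_ifs with h
        · simp only [Set.indicator]; split_ifs <;> norm_num
        · rw [h1 n (by omega)]; norm_num
      have h4 : 0 ≤ ∑ n ∈ range N, ((conj s S).indicator (fun _ => (1 : ℝ)) ((n : ℕ) : ℤ) - 0) := by
        apply sum_nonneg
        intro n _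
        simp only [Set.indicator]; split_ifs <;> norm_num
      rw [abs_of_nonneg h4]
      refine (sum_le_sum h3).trans ?_
      rw [sum_ite_eq']
      split_ifs <;> norm_num
    exact squeeze_zero_norm (fun N => h2 N) tendsto_one_div_atTop_nhds_zero_nat

theorem conj_ind_inv {s : ℤ} (hs : s = 1 ∨ s = -1) {S : Set ℤ} (hS : Invariant S) :
    InvF s (fun x => (conj s S).indicator (fun _ => (1 : ℝ)) x) := by
  classical
  constructor
  · intro x
    show |(conj s S).indicator (fun _ => (1 : ℝ)) x| ≤ 1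
    simp only [Set.indicator]
    split_ifs <;> norm_num
  · intro x
    show (conj s S).indicator (fun _ => (1 : ℝ)) (Tz s x) = (conj s S).indicator (fun _ => (1 : ℝ)) x
    simp only [Set.indicator, conj_inv hs hS x]

/-! ### the forms -/

theorem lin_eq {r : ℕ} (A n : Fin r → ℤ) : SH6.lf A n = lin A n := rfl

theorem rel_symm {r : ℕ} {A B : Fin r → ℤ} (h : Related A B) : Related B A := by
  obtain ⟨w, x, y, z, e⟩ := h
  exact ⟨y, z, w, x, fun j => (e j).symm⟩

theorem rel_refl {r : ℕ} (A : Fin r → ℤ) : Related A A := ⟨0, 0, 0, 0, fun _ => rfl⟩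

theorem rel_trans {r : ℕ} {A B D : Fin r → ℤ} (h : Related A B) (h' : Related B D) : Related A D := by
  obtain ⟨w, x, y, z, e⟩ := h
  obtain ⟨w', x', y', z', e'⟩ := h'
  refine ⟨w + w', x + x', y + y', z + z', fun j => ?_⟩
  calc A j * (2 ^ (w + w') * 3 ^ (x + x')) = A j * (2 ^ w * 3 ^ x) * (2 ^ w' * 3 ^ x') := by rw [pow_add, pow_add]; ring
    _ = B j * (2 ^ w' * 3 ^ x') * (2 ^ y * 3 ^ z) := by rw [e]; ring
    _ = _ := by rw [e', pow_add, pow_add]; ring

theorem unrel {r : ℕ} {A B : Fin r → ℤ} (h : ¬ Related A B) (x y u v : ℕ) :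
    (fun j => 2 ^ x * 3 ^ y * A j) ≠ fun j => 2 ^ u * 3 ^ v * B j := by
  intro e
  apply h
  refine ⟨x, y, u, v, fun j => ?_⟩
  have : 2 ^ x * 3 ^ y * A j = 2 ^ u * 3 ^ v * B j := congrFun e j
  rw [mul_comm, this, mul_comm]

theorem sgn_sgn {s : ℤ} (hs : s = 1 ∨ s = -1) (x : ℤ) : s * (s * x) = x := by rcases hs with rfl | rfl <;> ring

theorem ite_any {P Q : Prop} (i : Decidable P) (j : Decidable Q) (h : P ↔ Q) : @ite ℝ P i 1 0 = @ite ℝ Q j 1 0 := by
  split_ifs <;> first | rfl | (exfalso; tauto)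

/-- the product law for sets, with the signs, on convex sets -/
theorem k_sets (h : S_CONVU) {k r : ℕ} {A : Fin k → Fin r → ℤ} (hA : ∀ a, A a ≠ 0)
    (hrel : ∀ a b, a ≠ b → ¬ Related (A a) (A b)) {s : Fin k → ℤ} (hs : ∀ a, s a = 1 ∨ s a = -1)
    {S : Fin k → Set ℤ} (hS : ∀ a, Invariant (S a)) {δ : Fin k → ℝ} (h01 : ∀ a, 0 ≤ δ a ∧ δ a ≤ 1)
    (hm : ∀ a, MeanZero (fun x => (conj (s a) (S a)).indicator (fun _ => (1 : ℝ)) x - δ a)) (H : ℕ) {ε : ℝ} (hε : 0 < ε) :
    ∃ N0 : ℕ, ∀ N, N0 ≤ N → ∀ q : Fin k → ℤ, (∀ a, |q a| ≤ H * N) → ∀ K : Set (Fin r → ℝ), Convex ℝ K →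
      |prob N (fun n => Mem K n ∧ (∀ a, 0 < s a * (lin (A a) n + q a)) ∧ ∀ a, lin (A a) n + q a ∈ S a)
        - (∏ a, δ a) * prob N (fun n => Mem K n ∧ ∀ a, 0 < s a * (lin (A a) n + q a))| ≤ ε := by
  classical
  -- the functions
  obtain ⟨G, hG⟩ : ∃ G : Finset (Fin k) → Fin k → ℤ → ℝ,
      G = fun T a x => if a ∈ T then (S a).indicator (fun _ => (1 : ℝ)) x - δ a else δ a := ⟨_, rfl⟩
  have hind : ∀ (a : Fin k) (x : ℤ), (S a).indicator (fun _ => (1 : ℝ)) (s a * x)
      = (conj (s a) (S a)).indicator (fun _ => (1 : ℝ)) x := by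
    intro a x
    by_cases h1 : s a * x ∈ S a
    · rw [Set.indicator_of_mem h1, Set.indicator_of_mem (show x ∈ conj (s a) (S a) from h1)]
    · rw [Set.indicator_of_notMem h1, Set.indicator_of_notMem (show x ∉ conj (s a) (S a) from h1)]
  have hinv : ∀ T a, InvF (s a) (fun x => G T a (s a * x)) := by
    intro T a
    have h1 := conj_ind_inv (hs a) (hS a)
    obtain ⟨h0, h1'⟩ := h01 a
    constructor
    · intro x
      show |G T a (s a * x)| ≤ 1
      rw [hG]
      simp only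
      split_ifs
      · simp only [Set.indicator]
        rw [abs_le]
        split_ifs <;> constructor <;> linarith
      · rw [abs_le]; constructor <;> linarith
    · intro x
      show G T a (s a * Tz (s a) x) = G T a (s a * x)
      rw [hG]
      simp only
      split_ifs
      · rw [hind, hind]
        have := h1.2 x
        simp only at this
        rw [this]
      · rfl
  have hall : ∀ T : Finset (Fin k), ∃ N0 : ℕ, T.Nonempty → ∀ N, N0 ≤ N → ∀ q : Fin k → ℤ, (∀ a, |q a| ≤ H * N) →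
      ∀ K : Set (Fin r → ℝ), Convex ℝ K →
      |∑ n ∈ SH6.Bx r N, (if (fun j => (n j : ℝ)) ∈ K then SH6.ph A q s (G T) n else 0)| ≤ ε / 2 ^ k * (N : ℝ) ^ r := by
    intro T
    by_cases hT : T.Nonempty
    · obtain ⟨a0, ha0⟩ := hT
      obtain ⟨N0, hN0⟩ := h k r A hA (fun a b hab => unrel (hrel a b hab)) s hs (G T) (hinv T) a0 (by
        rw [hG]
        simp only [if_pos ha0, hind]
        exact hm a0) H (ε / 2 ^ k) (by positivity)
      refine ⟨N0, fun _ N hN q hq K hK => ?_⟩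
      have := hN0 N hN q hq K hK
      convert this using 2
    · exact ⟨0, fun h => absurd h hT⟩
  choose N0 hN0 using hall
  refine ⟨max 1 (univ.sup N0), fun N hN q hq K hK => ?_⟩
  have hN1 : 1 ≤ N := (le_max_left _ _).trans hN
  have hNr : (0 : ℝ) < (N : ℝ) ^ r := by
    have : (0 : ℝ) < N := by exact_mod_cast hN1
    positivity
  -- the expansion
  have hexp : ∀ n : Fin r → ℤ, (if Mem K n ∧ (∀ a, 0 < s a * (lin (A a) n + q a)) ∧ ∀ a, lin (A a) n + q a ∈ S a then (1 : ℝ) else 0)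
      = ∑ T ∈ (univ : Finset (Fin k)).powerset, (if (fun j => (n j : ℝ)) ∈ K then SH6.ph A q s (G T) n else 0) := by
    intro n
    have e1 : ∀ T : Finset (Fin k), SH6.ph A q s (G T) n
        = (if ∀ a, 0 < s a * (lin (A a) n + q a) then (1 : ℝ) else 0) *
          ((∏ a ∈ T, ((S a).indicator (fun _ => (1 : ℝ)) (lin (A a) n + q a) - δ a)) * ∏ a ∈ univ \ T, δ a) := by
      intro T
      unfold SH6.ph
      rw [prod_mul_distrib, Fintype.prod_ite_zero, Finset.prod_const_one, mul_comm]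
      congr 1
      · exact ite_any _ _ Iff.rfl
      rw [← prod_sdiff (subset_univ T), mul_comm]
      congr 1
      · apply prod_congr rfl
        intro a ha
        rw [hG]; simp only [if_pos ha]; rfl
      · apply prod_congr rfl
        intro a ha
        rw [hG]; simp only [if_neg (mem_sdiff.1 ha).2]
    have e2 : ∏ a, (S a).indicator (fun _ => (1 : ℝ)) (lin (A a) n + q a)
        = ∑ T ∈ (univ : Finset (Fin k)).powerset,
          (∏ a ∈ T, ((S a).indicator (fun _ => (1 : ℝ)) (lin (A a) n + q a) - δ a)) * ∏ a ∈ univ \ T, δ a := by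
      rw [← prod_add]
      apply prod_congr rfl
      intro a _
      ring
    have e3 : ∏ a, (S a).indicator (fun _ => (1 : ℝ)) (lin (A a) n + q a)
        = if ∀ a, lin (A a) n + q a ∈ S a then (1 : ℝ) else 0 := by
      simp only [Set.indicator]
      rw [Fintype.prod_ite_zero, Finset.prod_const_one]
      exact ite_any _ _ Iff.rfl
    simp only [e1]
    by_cases hK' : Mem K n
    · have hK2 : (fun j => (n j : ℝ)) ∈ K := hK'
      simp only [if_pos hK2]
      rw [← mul_sum, ← e2, e3]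
      by_cases h1 : ∀ a, 0 < s a * (lin (A a) n + q a)
      · rw [if_pos h1, one_mul]
        by_cases h2 : ∀ a, lin (A a) n + q a ∈ S a
        · rw [if_pos h2, if_pos ⟨hK', h1, h2⟩]
        · rw [if_neg h2, if_neg (fun h => h2 h.2.2)]
      · rw [if_neg h1, zero_mul, if_neg (fun h => h1 h.2.1)]
    · have hK2 : ¬ (fun j => (n j : ℝ)) ∈ K := hK'
      simp only [if_neg hK2, sum_const_zero]
      rw [if_neg (fun h => hK' h.1)]
  have hempty : ∀ n : Fin r → ℤ, (if (fun j => (n j : ℝ)) ∈ K then SH6.ph A q s (G ∅) n else 0)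
      = (∏ a, δ a) * (if Mem K n ∧ ∀ a, 0 < s a * (lin (A a) n + q a) then (1 : ℝ) else 0) := by
    intro n
    have e1 : SH6.ph A q s (G ∅) n = (∏ a, δ a) * (if ∀ a, 0 < s a * (lin (A a) n + q a) then (1 : ℝ) else 0) := by
      unfold SH6.ph
      rw [prod_mul_distrib, Fintype.prod_ite_zero, Finset.prod_const_one]
      congr 1
      · apply prod_congr rfl
        intro a _
        rw [hG]; simp only [if_neg (notMem_empty a)]
      · exact ite_any _ _ Iff.rfl
    by_cases hK' : Mem K n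
    · have hK2 : (fun j => (n j : ℝ)) ∈ K := hK'
      rw [if_pos hK2, e1]
      congr 1
      simp only [hK', true_and]
    · have hK2 : ¬ (fun j => (n j : ℝ)) ∈ K := hK'
      rw [if_neg hK2, if_neg (fun h => hK' h.1), mul_zero]
  rw [prob_eq, prob_eq, ← mul_div_assoc, ← sub_div, abs_div, abs_of_pos hNr, div_le_iff₀ hNr]
  have h1 : ((#{n ∈ SH6.Bx r N | Mem K n ∧ (∀ a, 0 < s a * (lin (A a) n + q a)) ∧ ∀ a, lin (A a) n + q a ∈ S a} : ℕ) : ℝ)
      = ∑ T ∈ (univ : Finset (Fin k)).powerset, ∑ n ∈ SH6.Bx r N, (if (fun j => (n j : ℝ)) ∈ K then SH6.ph A q s (G T) n else 0) := by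
    rw [sum_comm, ← sum_congr rfl fun n _ => hexp n, card_filter]
    push_cast
    rfl
  have h2 : (∏ a, δ a) * ((#{n ∈ SH6.Bx r N | Mem K n ∧ ∀ a, 0 < s a * (lin (A a) n + q a)} : ℕ) : ℝ)
      = ∑ n ∈ SH6.Bx r N, (if (fun j => (n j : ℝ)) ∈ K then SH6.ph A q s (G ∅) n else 0) := by
    rw [sum_congr rfl fun n _ => hempty n, ← mul_sum, card_filter]
    push_cast
    rfl
  rw [h1, h2, ← Finset.add_sum_erase _ _ (empty_mem_powerset (univ : Finset (Fin k))), add_sub_cancel_left]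
  refine (abs_sum_le_sum_abs _ _).trans ?_
  have h3 : ∀ T ∈ (univ : Finset (Fin k)).powerset.erase ∅,
      |∑ n ∈ SH6.Bx r N, (if (fun j => (n j : ℝ)) ∈ K then SH6.ph A q s (G T) n else 0)| ≤ ε / 2 ^ k * (N : ℝ) ^ r := by
    intro T hT
    apply hN0 T (nonempty_iff_ne_empty.2 (ne_of_mem_erase hT)) N _ q hq K hK
    exact (Finset.le_sup (mem_univ T)).trans ((le_max_right _ _).trans hN)
  refine (sum_le_sum h3).trans ?_
  rw [sum_const, nsmul_eq_mul]
  have h4 : ((#((univ : Finset (Fin k)).powerset.erase ∅) : ℕ) : ℝ) ≤ 2 ^ k := by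
    have : #((univ : Finset (Fin k)).powerset.erase ∅) ≤ 2 ^ k := by
      refine (card_le_card (erase_subset _ _)).trans ?_
      rw [card_powerset, card_univ, Fintype.card_fin]
    exact_mod_cast this
  calc _ ≤ 2 ^ k * (ε / 2 ^ k * (N : ℝ) ^ r) := mul_le_mul_of_nonneg_right h4 (by positivity)
    _ = ε * (N : ℝ) ^ r := by field_simp


theorem dens_unique {s : ℤ} {S : Set ℤ} {δ δ' : ℝ} (h : HasDensity s S δ) (h' : HasDensity s S δ') : δ = δ' :=
  tendsto_nhds_unique h h'

theorem dens_compl {s : ℤ} {S : Set ℤ} {δ : ℝ} (hd : HasDensity s S δ) : HasDensity s Sᶜ (1 - δ) := by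
  refine (hd.const_sub 1).congr' ?_
  filter_upwards [eventually_ge_atTop 1] with N hN
  exact (prob1_not hN fun n => s * n ∈ S).symm

/-- the density of an invariant set: existence, when it is `0`, when it is `1` -/
theorem dens_all {s : ℤ} (hs : s = 1 ∨ s = -1) {S : Set ℤ} (hS : Invariant S) :
    ∃ δ : ℝ, HasDensity s S δ ∧ 0 ≤ δ ∧ δ ≤ 1 ∧ (0 < δ ↔ ∃ x ∈ S, 0 < s * x) ∧ (δ = 1 ↔ ∀ x : ℤ, 0 < s * x → x ∈ S) := by
  have hss : ∀ x : ℤ, s * (s * x) = x := by intro x; rcases hs with rfl | rfl <;> ring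
  have key : ∀ {S : Set ℤ}, Invariant S → ∀ {δ : ℝ}, HasDensity s S δ → (∀ x ∈ S, ¬ 0 < s * x) → δ = 0 := by
    intro S hS δ hd hno
    have h1 : Tendsto (fun _ : ℕ => (0 : ℝ)) atTop (𝓝 δ) := by
      refine hd.congr fun N => ?_
      classical
      show prob1 N (fun n => s * n ∈ S) = 0
      rw [prob1_eq, filter_false_of_mem]
      · simp
      · intro n hn hnS
        rw [mem_Icc] at hn
        exact hno _ hnS (by rw [hss]; exact_mod_cast hn.1)
    exact (tendsto_nhds_unique h1 tendsto_const_nhds)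
  obtain ⟨δ, h0, h1, hpos, hm⟩ := mz_all hs hS
  obtain ⟨δ', h0', h1', hpos', hm'⟩ := mz_all hs (compl_inv hS)
  have hd := density_of_mz hm
  have hd' := density_of_mz hm'
  have e : 1 - δ = δ' := dens_unique (dens_compl hd) hd'
  refine ⟨δ, hd, h0, h1, ⟨fun h => ?_, hpos⟩, ⟨fun h x hx => ?_, fun h => ?_⟩⟩
  · by_contra hno
    push Not at hno
    have := key hS hd (fun x hx => not_lt.2 (hno x hx))
    linarith
  · by_contra hxS
    have := hpos' ⟨x, hxS, hx⟩
    linarith
  · have := key (compl_inv hS) hd' (fun x hx hx' => hx (h x hx'))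
    linarith


theorem dens_facts {s : ℤ} (hs : s = 1 ∨ s = -1) {S : Set ℤ} (hS : Invariant S) {δ : ℝ} (hd : HasDensity s S δ) :
    0 ≤ δ ∧ δ ≤ 1 ∧ MeanZero (fun x => (conj s S).indicator (fun _ => (1 : ℝ)) x - δ) := by
  obtain ⟨c, h0, h1, -, hm⟩ := mz_all hs hS
  rw [dens_unique hd (density_of_mz hm)]
  exact ⟨h0, h1, hm⟩


end Pool.Agent.KS6_6.LP
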